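import Pool.Agent.R814.Game.Basic
import Pool.Agent.Results.MP_e8ee11_co.ColouringsCount

/-!
# The Beck–Fiala problem when an adversary colours almost half of the elements, online

Let `S` be a system of `m` subsets of `[n]` of maximum degree at most `t`. The elements `1, …, n`
are coloured one after the other in this order with `±1`, the elements of `J` by an adversary and
the others by the player, who knows the system and the colours chosen so far, but not the future
colours of the adversary. Call `J` winnable with bound `R` if the player can force that the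
colouring has discrepancy at most `R`.

(1) For arbitrary systems and every `R`, the number of the sets `J` which are winnable with bound
`R` is equal to the number of the colourings of discrepancy at most `R`.

(2) For `D > 0` at least `2^n exp (-15200 n / D²)` sets `J` are winnable with bound `t + D √t`, and
one of them has at least `n / 2 - 88 n / D` elements.

(3) The same holds with the bound `C (√t + (1 + log t)^{3/2} √(log (1 + min m n))) + D √t`, for an
absolute constant `C`.

(4) The Beck–Fiala conjecture holds if and only if there is a constant `C` such that for all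
systems of maximum degree at most `t` and all `D ≥ C` some set with at least `n / 2 - C n / D`
elements is winnable with bound `D √t`.

(5) One half is best possible: if the only set is `[n]`, a set which is winnable with bound `R` has
at most `(n + R) / 2` elements.

Proof of (1): by induction on `n`, since `|A ∩ B| + |A ∪ B| = |A| + |B|`. The rest follows by (1)
from the count of the colourings of small discrepancy in the starting file `ColouringsCount`, and
from Hoeffding's inequality.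
-/

set_option autoImplicit false

namespace Pool.Agent.Results.MP_e8ee11_co.AdversarialColours

/-- Every element is in at most `t` of the sets `S_1, …, S_m`. -/
def DegreeLE {m n : ℕ} (S : Fin m → Finset (Fin n)) (t : ℕ) : Prop :=
  ∀ i, (Finset.univ.filter (fun j => i ∈ S j)).card ≤ t

/-- The player, who colours the elements outside `J`, has a strategy `σ` which forces that the
colouring has discrepancy at most `R`, whatever the colours of the elements of `J` are. The colour
`σ j χ` depends only on the colours `χ i`, `i < j`. -/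
def Winnable {m n : ℕ} (S : Fin m → Finset (Fin n)) (R : ℝ) (J : Finset (Fin n)) : Prop :=
  ∃ σ : Fin n → (Fin n → ℤˣ) → ℤˣ,
    (∀ j χ χ', (∀ i, i < j → χ i = χ' i) → σ j χ = σ j χ') ∧
    ∀ χ : Fin n → ℤˣ, (∀ j, j ∉ J → χ j = σ j χ) → ∀ j, |∑ i ∈ S j, ((χ i : ℤ) : ℝ)| ≤ R

theorem card_eq {m n : ℕ} (S : Fin m → Finset (Fin n)) (R : ℝ) :
    Nat.card {J : Finset (Fin n) // Winnable S R J} =
      Nat.card {χ : Fin n → ℤˣ // ∀ j, |∑ i ∈ S j, ((χ i : ℤ) : ℝ)| ≤ R} :=
  Pool.Agent.R814.Game.card_wins (fun χ : Fin n → ℤˣ => ∀ j, |∑ i ∈ S j, ((χ i : ℤ) : ℝ)| ≤ R)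

theorem winnable_value {m n : ℕ} {S : Fin m → Finset (Fin n)} {R : ℝ} {J : Finset (Fin n)}
    (h : Winnable S R J) : ∃ χ : Fin n → ℤˣ, ∀ j, |∑ i ∈ S j, ((χ i : ℤ) : ℝ)| ≤ R :=
  Pool.Agent.R814.Game.Wins.exists_sign
    (F := fun χ : Fin n → ℤˣ => ∀ j, |∑ i ∈ S j, ((χ i : ℤ) : ℝ)| ≤ R) h

theorem from_count {m n : ℕ} (S : Fin m → Finset (Fin n)) (R D : ℝ) (hD : 0 < D)
    (h : 2 ^ n * Real.exp (-(15200 * n / D ^ 2)) ≤
      (Nat.card {χ : Fin n → ℤˣ // ∀ j, |∑ i ∈ S j, ((χ i : ℤ) : ℝ)| ≤ R} : ℝ)) :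
    2 ^ n * Real.exp (-(15200 * n / D ^ 2)) ≤
      (Nat.card {J : Finset (Fin n) // Winnable S R J} : ℝ) ∧
    ∃ J : Finset (Fin n), Winnable S R J ∧ (n : ℝ) / 2 - 88 * n / D ≤ J.card := by
  rw [← card_eq] at h
  refine ⟨h, ?_⟩
  obtain ⟨J, hJ, hJ2⟩ := Pool.Agent.R814.Game.exists_large _ (15200 / D ^ 2) (88 / D)
    (by positivity) (by
      rw [div_pow, ← mul_div_assoc]
      apply div_lt_div_of_pos_right (by norm_num) (by positivity)) (by
      refine le_trans (le_of_eq ?_) h
      congr 2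
      ring)
  refine ⟨J, hJ, ?_⟩
  refine le_trans (le_of_eq ?_) hJ2
  ring

theorem part4 :
    (∃ C : ℝ, 0 < C ∧ ∀ (n m t : ℕ) (S : Fin m → Finset (Fin n)), DegreeLE S t →
      ∃ χ : Fin n → ℤ, (∀ i, χ i = 1 ∨ χ i = -1) ∧
        ∀ j, ((|∑ i ∈ S j, χ i| : ℤ) : ℝ) ≤ C * Real.sqrt t) ↔
    ∃ C : ℝ, 0 < C ∧ ∀ (n m t : ℕ) (S : Fin m → Finset (Fin n)), DegreeLE S t →
      ∀ D : ℝ, C ≤ D → ∃ J : Finset (Fin n), Winnable S (D * Real.sqrt t) J ∧
        (n : ℝ) / 2 - C * n / D ≤ J.card := by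
  constructor
  · intro h
    obtain ⟨C, hC, h2⟩ := Pool.Agent.Results.MP_e8ee11_co.ColouringsCount.part3.1 h
    refine ⟨max C 1, by positivity, fun n m t S hS D hD => ?_⟩
    have hCD : C ≤ D := (le_max_left _ _).trans hD
    have hD0 : 0 < D := by linarith
    have h3 := h2 n m t S hS D hCD
    unfold Pool.Agent.Results.MP_e8ee11_co.ColouringsCount.count at h3
    rw [← card_eq] at h3
    have hm : 0 < max C 1 := by positivity
    obtain ⟨J, hJ, hJ2⟩ := Pool.Agent.R814.Game.exists_large _ (C / D ^ 2) (max C 1 / D)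
      (by positivity) (by
        rw [div_pow, ← mul_div_assoc]
        apply div_lt_div_of_pos_right _ (by positivity)
        have h4 : C ≤ max C 1 := le_max_left _ _
        have h5 : 1 ≤ max C 1 := le_max_right _ _
        nlinarith) (by
        refine le_trans (le_of_eq ?_) h3
        congr 2
        ring)
    refine ⟨J, hJ, ?_⟩
    refine le_trans (le_of_eq ?_) hJ2
    ring
  · rintro ⟨C, hC, h⟩
    refine ⟨C, hC, fun n m t S hS => ?_⟩
    obtain ⟨J, hJ, _⟩ := h n m t S hS C le_rfl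
    obtain ⟨χ, hχ⟩ := winnable_value hJ
    refine ⟨fun i => (χ i : ℤ), fun i => ?_, fun j => ?_⟩
    · rcases Int.units_eq_one_or (χ i) with h | h <;> simp [h]
    · have := hχ j
      push_cast
      exact this

theorem exists_play {n : ℕ} (J : Finset (Fin n)) (σ : Fin n → (Fin n → ℤˣ) → ℤˣ)
    (hσ : ∀ j ε ε', (∀ i, i < j → ε i = ε' i) → σ j ε = σ j ε') :
    ∃ ε : Fin n → ℤˣ, (∀ j, j ∉ J → ε j = σ j ε) ∧ ∀ j ∈ J, ε j = 1 := by
  classical
  have h : ∀ m : ℕ, m ≤ n → ∃ ε : Fin n → ℤˣ, ∀ j : Fin n, (j : ℕ) < m →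
      (j ∉ J → ε j = σ j ε) ∧ (j ∈ J → ε j = 1) := by
    intro m
    induction m with
    | zero => intro _; exact ⟨fun _ => 1, fun j hj => absurd hj (Nat.not_lt_zero _)⟩
    | succ m ih =>
      intro hm
      obtain ⟨ε, hε⟩ := ih (by omega)
      have hmn : m < n := by omega
      refine ⟨Function.update ε ⟨m, hmn⟩ (if (⟨m, hmn⟩ : Fin n) ∈ J then 1 else σ ⟨m, hmn⟩ ε),
        fun j hj => ?_⟩
      have hloc : ∀ j : Fin n, (j : ℕ) ≤ m → σ j (Function.update ε ⟨m, hmn⟩
          (if (⟨m, hmn⟩ : Fin n) ∈ J then 1 else σ ⟨m, hmn⟩ ε)) = σ j ε := by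
        intro j hj
        apply hσ
        intro i hi
        rw [Function.update_of_ne]
        intro h
        rw [h] at hi
        have : m < (j : ℕ) := hi
        omega
      by_cases hjm : j = ⟨m, hmn⟩
      · subst hjm
        rw [hloc _ le_rfl, Function.update_self]
        constructor
        · intro h; rw [if_neg h]
        · intro h; rw [if_pos h]
      · have hj2 : (j : ℕ) < m := by
          have : (j : ℕ) ≠ m := fun h => hjm (Fin.ext h)
          omega
        rw [hloc j (by omega), Function.update_of_ne hjm]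
        exact hε j hj2
  obtain ⟨ε, hε⟩ := h n le_rfl
  exact ⟨ε, fun j hj => (hε j j.isLt).1 hj, fun j hj => (hε j j.isLt).2 hj⟩

theorem part5 (n : ℕ) (R : ℝ) (J : Finset (Fin n))
    (h : Winnable (fun (_ : Fin 1) => (Finset.univ : Finset (Fin n))) R J) :
    (J.card : ℝ) ≤ (n + R) / 2 := by
  classical
  obtain ⟨σ, hσ, hF⟩ := h
  obtain ⟨ε, h1, h2⟩ := exists_play J σ hσ
  have h3 := (le_abs_self _).trans (hF ε h1 0)
  rw [← Finset.sum_add_sum_compl J] at h3
  have h4 : ∑ i ∈ J, ((ε i : ℤ) : ℝ) = J.card := by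
    rw [Finset.sum_congr rfl (fun i hi => by rw [h2 i hi])]
    simp
  have h5 : -((n : ℝ) - J.card) ≤ ∑ i ∈ Jᶜ, ((ε i : ℤ) : ℝ) := by
    have h6 : ∀ i ∈ Jᶜ, (-1 : ℝ) ≤ ((ε i : ℤ) : ℝ) := by
      intro i _
      rcases Int.units_eq_one_or (ε i) with h | h <;> simp [h]
    have h7 := Finset.card_nsmul_le_sum Jᶜ _ _ h6
    rw [nsmul_eq_mul, Finset.card_compl, Fintype.card_fin, Nat.cast_sub (by
      have := Finset.card_le_univ J
      rwa [Fintype.card_fin] at this)] at h7
    linarith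
  rw [h4] at h3
  linarith

/-- **Beck–Fiala with an adversary**: see the header of the file. -/
theorem result :
    (∀ (m n : ℕ) (S : Fin m → Finset (Fin n)) (R : ℝ),
      Nat.card {J : Finset (Fin n) // Winnable S R J} =
        Nat.card {χ : Fin n → ℤˣ // ∀ j, |∑ i ∈ S j, ((χ i : ℤ) : ℝ)| ≤ R}) ∧
    (∀ (m n t : ℕ) (S : Fin m → Finset (Fin n)) (D : ℝ), DegreeLE S t → 0 < D →
      2 ^ n * Real.exp (-(15200 * n / D ^ 2)) ≤
        (Nat.card {J : Finset (Fin n) // Winnable S (t + D * Real.sqrt t) J} : ℝ) ∧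
      ∃ J : Finset (Fin n), Winnable S (t + D * Real.sqrt t) J ∧
        (n : ℝ) / 2 - 88 * n / D ≤ J.card) ∧
    (∃ C : ℝ, ∀ (m n t : ℕ) (S : Fin m → Finset (Fin n)) (D : ℝ), 1 ≤ t → DegreeLE S t →
      0 < D → 2 ^ n * Real.exp (-(15200 * n / D ^ 2)) ≤ (Nat.card {J : Finset (Fin n) //
        Winnable S (C * (Real.sqrt t + (1 + Real.log t) ^ (3 / 2 : ℝ) *
          Real.sqrt (Real.log (1 + (min m n : ℕ)))) + D * Real.sqrt t) J} : ℝ) ∧
      ∃ J : Finset (Fin n), Winnable S (C * (Real.sqrt t + (1 + Real.log t) ^ (3 / 2 : ℝ) *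
          Real.sqrt (Real.log (1 + (min m n : ℕ)))) + D * Real.sqrt t) J ∧
        (n : ℝ) / 2 - 88 * n / D ≤ J.card) ∧
    ((∃ C : ℝ, 0 < C ∧ ∀ (n m t : ℕ) (S : Fin m → Finset (Fin n)), DegreeLE S t →
        ∃ χ : Fin n → ℤ, (∀ i, χ i = 1 ∨ χ i = -1) ∧
          ∀ j, ((|∑ i ∈ S j, χ i| : ℤ) : ℝ) ≤ C * Real.sqrt t) ↔
      ∃ C : ℝ, 0 < C ∧ ∀ (n m t : ℕ) (S : Fin m → Finset (Fin n)), DegreeLE S t →
        ∀ D : ℝ, C ≤ D → ∃ J : Finset (Fin n), Winnable S (D * Real.sqrt t) J ∧
          (n : ℝ) / 2 - C * n / D ≤ J.card) ∧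
    ∀ (n : ℕ) (R : ℝ) (J : Finset (Fin n)),
      Winnable (fun (_ : Fin 1) => (Finset.univ : Finset (Fin n))) R J →
        (J.card : ℝ) ≤ (n + R) / 2 := by
  refine ⟨fun _ _ S R => card_eq S R, fun m n t S D hS hD => ?_, ?_, part4, part5⟩
  · exact from_count S _ D hD
      (Pool.Agent.Results.MP_e8ee11_co.ColouringsCount.part2 m n t S D hS hD)
  · obtain ⟨C, hC⟩ := Pool.Agent.Results.MP_e8ee11_co.ColouringsCount.part2'
    exact ⟨C, fun m n t S D ht hS hD => from_count S _ D hD (hC m n t S D ht hS hD)⟩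

end Pool.Agent.Results.MP_e8ee11_co.AdversarialColours
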