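import Pool.Agent.R814.Game.Basic
import Pool.Agent.Results.MP_c81d26_co.SigningsCount

/-!
# The Komlós problem when an adversary chooses almost half of the signs, online

Let `v_1, …, v_n` be vectors in the Euclidean unit ball of `ℝ^d`. The signs `ε_1, …, ε_n` are chosen
one after the other in this order, the signs `ε_j` with `j ∈ J` by an adversary and the others by
the player, who knows the vectors and the signs chosen so far, but not the future signs of the
adversary. Call `J` winnable with bound `R` if the player can force that the signing has value at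
most `R`.

(1) For arbitrary vectors and every `R`, the number of the sets `J` which are winnable with bound
`R` is equal to the number of the signings of value at most `R`.

(2) There is an absolute constant `C` such that for `R = C (1 + log (1 + min n d))^{1/4} + D`,
`D > 0`, at least `2^n exp (-15200 n / D²)` sets `J` are winnable with bound `R`, and one of them
has at least `n / 2 - 88 n / D` elements.

(3) Komlós's conjecture holds if and only if there is a constant `C` such that for all families in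
the unit ball and all `D ≥ C` some set with at least `n / 2 - C n / D` elements is winnable with
bound `D`.

(4) One half is best possible: if all the vectors are equal to the unit vector of `ℝ^1`, a set
which is winnable with bound `R` has at most `(n + R) / 2` elements.

Proof of (1): by induction on the number of the signs, since `|A ∩ B| + |A ∪ B| = |A| + |B|`.
The rest follows by (1) from the count of the signings of small value in the starting file
`SigningsCount`, and from Hoeffding's inequality.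
-/

set_option autoImplicit false

namespace Pool.Agent.Results.MP_c81d26_co.AdversarialSigns

/-- The vectors `v_1, …, v_n` lie in the closed Euclidean unit ball of `ℝ^d`. -/
def InBall {n d : ℕ} (v : Fin n → Fin d → ℝ) : Prop := ∀ i, ∑ k, v i k ^ 2 ≤ 1

/-- The player, who chooses the signs with an index outside `J`, has a strategy `σ` which forces
that the signing has value at most `R`, whatever the signs with an index in `J` are. The sign
`σ j ε` depends only on the signs `ε_i`, `i < j`. -/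
def Winnable {n d : ℕ} (v : Fin n → Fin d → ℝ) (R : ℝ) (J : Finset (Fin n)) : Prop :=
  ∃ σ : Fin n → (Fin n → ℤˣ) → ℤˣ,
    (∀ j ε ε', (∀ i, i < j → ε i = ε' i) → σ j ε = σ j ε') ∧
    ∀ ε : Fin n → ℤˣ, (∀ j, j ∉ J → ε j = σ j ε) → ∀ k, |∑ i, ((ε i : ℤ) : ℝ) * v i k| ≤ R

theorem card_eq {n d : ℕ} (v : Fin n → Fin d → ℝ) (R : ℝ) :
    Nat.card {J : Finset (Fin n) // Winnable v R J} =
      Nat.card {ε : Fin n → ℤˣ // ∀ k, |∑ i, ((ε i : ℤ) : ℝ) * v i k| ≤ R} :=
  Pool.Agent.R814.Game.card_wins (fun ε : Fin n → ℤˣ => ∀ k, |∑ i, ((ε i : ℤ) : ℝ) * v i k| ≤ R)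

theorem winnable_value {n d : ℕ} {v : Fin n → Fin d → ℝ} {R : ℝ} {J : Finset (Fin n)}
    (h : Winnable v R J) : ∃ ε : Fin n → ℤˣ, ∀ k, |∑ i, ((ε i : ℤ) : ℝ) * v i k| ≤ R :=
  Pool.Agent.R814.Game.Wins.exists_sign
    (F := fun ε : Fin n → ℤˣ => ∀ k, |∑ i, ((ε i : ℤ) : ℝ) * v i k| ≤ R) h

theorem part2 : ∃ C : ℝ, ∀ (n d : ℕ) (v : Fin n → Fin d → ℝ) (D : ℝ), InBall v → 0 < D →
    2 ^ n * Real.exp (-(15200 * n / D ^ 2)) ≤ (Nat.card {J : Finset (Fin n) //
      Winnable v (C * (1 + Real.log (1 + (min n d : ℕ))) ^ (1 / 4 : ℝ) + D) J} : ℝ) ∧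
    ∃ J : Finset (Fin n),
      Winnable v (C * (1 + Real.log (1 + (min n d : ℕ))) ^ (1 / 4 : ℝ) + D) J ∧
      (n : ℝ) / 2 - 88 * n / D ≤ J.card := by
  obtain ⟨C, hC⟩ := Pool.Agent.Results.MP_c81d26_co.SigningsCount.part2
  refine ⟨C, fun n d v D hv hD => ?_⟩
  have h := hC n d v D hv hD
  unfold Pool.Agent.Results.MP_c81d26_co.SigningsCount.count at h
  rw [← card_eq] at h
  refine ⟨h, ?_⟩
  obtain ⟨J, hJ, hJ2⟩ := Pool.Agent.R814.Game.exists_large _ (15200 / D ^ 2) (88 / D)
    (by positivity) (by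
      rw [div_pow, ← mul_div_assoc]
      apply div_lt_div_of_pos_right (by norm_num) (by positivity)) (by
      refine le_trans (le_of_eq ?_) h
      congr 2
      ring)
  refine ⟨J, hJ, ?_⟩
  refine le_trans (le_of_eq ?_) hJ2
  ring

theorem part3 :
    (∃ c : ℝ, 0 < c ∧ ∀ (n d : ℕ) (v : Fin n → Fin d → ℝ), InBall v →
      ∃ ε : Fin n → ℝ, (∀ i, ε i = 1 ∨ ε i = -1) ∧ ∀ k, |∑ i, ε i * v i k| ≤ c) ↔
    ∃ C : ℝ, 0 < C ∧ ∀ (n d : ℕ) (v : Fin n → Fin d → ℝ), InBall v → ∀ D : ℝ, C ≤ D →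
      ∃ J : Finset (Fin n), Winnable v D J ∧ (n : ℝ) / 2 - C * n / D ≤ J.card := by
  constructor
  · intro h
    obtain ⟨C, hC, h2⟩ := Pool.Agent.Results.MP_c81d26_co.SigningsCount.part3.1 h
    refine ⟨max C 1, by positivity, fun n d v hv D hD => ?_⟩
    have hCD : C ≤ D := (le_max_left _ _).trans hD
    have hD0 : 0 < D := by linarith
    have h3 := h2 n d v hv D hCD
    unfold Pool.Agent.Results.MP_c81d26_co.SigningsCount.count at h3
    rw [← card_eq] at h3
    have hm : 0 < max C 1 := by positivity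
    obtain ⟨J, hJ, hJ2⟩ := Pool.Agent.R814.Game.exists_large _ (C / D ^ 2) (max C 1 / D)
      (by positivity) (by
        rw [div_pow, ← mul_div_assoc]
        apply div_lt_div_of_pos_right _ (by positivity)
        have h4 : C ≤ max C 1 := le_max_left _ _
        have h5 : 1 ≤ max C 1 := le_max_right _ _
        nlinarith) (by
        refine le_trans (le_of_eq ?_) h3
        congr 2
        ring)
    refine ⟨J, hJ, ?_⟩
    refine le_trans (le_of_eq ?_) hJ2
    ring
  · rintro ⟨C, hC, h⟩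
    refine ⟨C, hC, fun n d v hv => ?_⟩
    obtain ⟨J, hJ, _⟩ := h n d v hv C le_rfl
    obtain ⟨ε, hε⟩ := winnable_value hJ
    exact ⟨fun i => ((ε i : ℤ) : ℝ),
      fun i => Pool.Agent.Results.MP_c81d26_co.SigningsCount.units_real _, hε⟩

/-- there is a play for all signs of the adversary -/
theorem exists_play {n : ℕ} (J : Finset (Fin n)) (σ : Fin n → (Fin n → ℤˣ) → ℤˣ)
    (hσ : ∀ j ε ε', (∀ i, i < j → ε i = ε' i) → σ j ε = σ j ε') :
    ∃ ε : Fin n → ℤˣ, (∀ j, j ∉ J → ε j = σ j ε) ∧ ∀ j ∈ J, ε j = 1 := by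
  classical
  have h : ∀ m : ℕ, m ≤ n → ∃ ε : Fin n → ℤˣ, ∀ j : Fin n, (j : ℕ) < m →
      (j ∉ J → ε j = σ j ε) ∧ (j ∈ J → ε j = 1) := by
    intro m
    induction m with
    | zero => intro _; exact ⟨fun _ => 1, fun j hj => absurd hj (Nat.not_lt_zero _)⟩
    | succ m ih =>
      intro hm
      obtain ⟨ε, hε⟩ := ih (by omega)
      have hmn : m < n := by omega
      refine ⟨Function.update ε ⟨m, hmn⟩ (if (⟨m, hmn⟩ : Fin n) ∈ J then 1 else σ ⟨m, hmn⟩ ε),
        fun j hj => ?_⟩
      have hloc : ∀ j : Fin n, (j : ℕ) ≤ m → σ j (Function.update ε ⟨m, hmn⟩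
          (if (⟨m, hmn⟩ : Fin n) ∈ J then 1 else σ ⟨m, hmn⟩ ε)) = σ j ε := by
        intro j hj
        apply hσ
        intro i hi
        rw [Function.update_of_ne]
        intro h
        rw [h] at hi
        have : m < (j : ℕ) := hi
        omega
      by_cases hjm : j = ⟨m, hmn⟩
      · subst hjm
        rw [hloc _ le_rfl, Function.update_self]
        constructor
        · intro h; rw [if_neg h]
        · intro h; rw [if_pos h]
      · have hj2 : (j : ℕ) < m := by
          have : (j : ℕ) ≠ m := fun h => hjm (Fin.ext h)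
          omega
        rw [hloc j (by omega), Function.update_of_ne hjm]
        exact hε j hj2
  obtain ⟨ε, hε⟩ := h n le_rfl
  exact ⟨ε, fun j hj => (hε j j.isLt).1 hj, fun j hj => (hε j j.isLt).2 hj⟩

theorem part4 (n : ℕ) (R : ℝ) (J : Finset (Fin n))
    (h : Winnable (fun (_ : Fin n) (_ : Fin 1) => (1:ℝ)) R J) : (J.card : ℝ) ≤ (n + R) / 2 := by
  classical
  obtain ⟨σ, hσ, hF⟩ := h
  obtain ⟨ε, h1, h2⟩ := exists_play J σ hσ
  have h3 := (le_abs_self _).trans (hF ε h1 0)
  simp only [mul_one] at h3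
  rw [← Finset.sum_add_sum_compl J] at h3
  have h4 : ∑ i ∈ J, ((ε i : ℤ) : ℝ) = J.card := by
    rw [Finset.sum_congr rfl (fun i hi => by rw [h2 i hi])]
    simp
  have h5 : -((n : ℝ) - J.card) ≤ ∑ i ∈ Jᶜ, ((ε i : ℤ) : ℝ) := by
    have h6 : ∀ i ∈ Jᶜ, (-1 : ℝ) ≤ ((ε i : ℤ) : ℝ) := by
      intro i _
      rcases Int.units_eq_one_or (ε i) with h | h <;> simp [h]
    have h7 := Finset.card_nsmul_le_sum Jᶜ _ _ h6
    rw [nsmul_eq_mul, Finset.card_compl, Fintype.card_fin, Nat.cast_sub (by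
      have := Finset.card_le_univ J
      rwa [Fintype.card_fin] at this)] at h7
    linarith
  rw [h4] at h3
  linarith

/-- **Komlós with an adversary**: see the header of the file. -/
theorem result :
    (∀ (n d : ℕ) (v : Fin n → Fin d → ℝ) (R : ℝ),
      Nat.card {J : Finset (Fin n) // Winnable v R J} =
        Nat.card {ε : Fin n → ℤˣ // ∀ k, |∑ i, ((ε i : ℤ) : ℝ) * v i k| ≤ R}) ∧
    (∃ C : ℝ, ∀ (n d : ℕ) (v : Fin n → Fin d → ℝ) (D : ℝ), InBall v → 0 < D →
      2 ^ n * Real.exp (-(15200 * n / D ^ 2)) ≤ (Nat.card {J : Finset (Fin n) //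
        Winnable v (C * (1 + Real.log (1 + (min n d : ℕ))) ^ (1 / 4 : ℝ) + D) J} : ℝ) ∧
      ∃ J : Finset (Fin n),
        Winnable v (C * (1 + Real.log (1 + (min n d : ℕ))) ^ (1 / 4 : ℝ) + D) J ∧
        (n : ℝ) / 2 - 88 * n / D ≤ J.card) ∧
    ((∃ c : ℝ, 0 < c ∧ ∀ (n d : ℕ) (v : Fin n → Fin d → ℝ), InBall v →
        ∃ ε : Fin n → ℝ, (∀ i, ε i = 1 ∨ ε i = -1) ∧ ∀ k, |∑ i, ε i * v i k| ≤ c) ↔
      ∃ C : ℝ, 0 < C ∧ ∀ (n d : ℕ) (v : Fin n → Fin d → ℝ), InBall v → ∀ D : ℝ, C ≤ D →
        ∃ J : Finset (Fin n), Winnable v D J ∧ (n : ℝ) / 2 - C * n / D ≤ J.card) ∧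
    ∀ (n : ℕ) (R : ℝ) (J : Finset (Fin n)),
      Winnable (fun (_ : Fin n) (_ : Fin 1) => (1:ℝ)) R J → (J.card : ℝ) ≤ (n + R) / 2 :=
  ⟨fun _ _ v R => card_eq v R, part2, part3, part4⟩

end Pool.Agent.Results.MP_c81d26_co.AdversarialSigns
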